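import Mathlib

namespace Pool.Agent.Results.MP_c0a48b_al.Rect
open Set
open Cardinal hiding univ

/-- sets of finitary operations on `ℕ`; index `n` holds the `(n+1)`-ary ones -/
abbrev Ops : Type := ∀ n : ℕ, Set ((Fin (n + 1) → ℕ) → ℕ)

/-- local clones on `ℕ` -/
def LocalClone (C : Ops) : Prop :=
  (∀ (n : ℕ) (i : Fin (n + 1)), (fun x : Fin (n + 1) → ℕ => x i) ∈ C n) ∧
  (∀ (n m : ℕ) (g : (Fin (n + 1) → ℕ) → ℕ) (h : Fin (n + 1) → (Fin (m + 1) → ℕ) → ℕ),
    g ∈ C n → (∀ i, h i ∈ C m) → (fun x => g fun i => h i x) ∈ C m) ∧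
  ∀ (n : ℕ) (g : (Fin (n + 1) → ℕ) → ℕ),
    (∀ F : Finset (Fin (n + 1) → ℕ), ∃ h ∈ C n, ∀ x ∈ F, h x = g x) → g ∈ C n

/-- `L` has a lattice embedding into the lattice of local clones -/
def Embeds (L : Type) [Lattice L] : Prop :=
  ∃ f : L → Ops, Function.Injective f ∧ (∀ a, LocalClone (f a)) ∧ (∀ a b, f (a ⊓ b) = f a ⊓ f b) ∧
    (∀ a b, f a ≤ f (a ⊔ b) ∧ f b ≤ f (a ⊔ b)) ∧
    ∀ a b C, LocalClone C → f a ≤ C → f b ≤ C → f (a ⊔ b) ≤ C

abbrev S : Type := Σ n : ℕ, Finset ((Fin (n + 1) → ℕ) × ℕ)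

def P (C : Ops) : Set S := {s | ∃ h ∈ C s.1, ∀ q ∈ s.2, h q.1 = q.2}

def res {n : ℕ} (g : (Fin (n + 1) → ℕ) → ℕ) (F : Finset (Fin (n + 1) → ℕ)) : S :=
  ⟨n, F.image fun x => (x, g x)⟩

theorem res_mem {C : Ops} {n : ℕ} {g : (Fin (n + 1) → ℕ) → ℕ} {F : Finset (Fin (n + 1) → ℕ)} :
    res g F ∈ P C ↔ ∃ h ∈ C n, ∀ x ∈ F, h x = g x := by
  simp [res, P]

def J (X : Set S) : Ops := fun n => {g | ∀ F, ∃ Q : Finset S, ↑Q ⊆ X ∧
  ∀ E, LocalClone E → ↑Q ⊆ P E → res g F ∈ P E}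

theorem J_clone (X : Set S) : LocalClone (J X) := by
  classical
  refine ⟨fun n i F => ⟨∅, by simp, fun E hE _ => res_mem.2 ⟨_, hE.1 n i, fun _ _ => rfl⟩⟩,
    fun n m g h hg hh F => ?_, fun n g hg F => ?_⟩
  · obtain ⟨Q, q1, q2⟩ := hg (F.image fun x i => h i x)
    choose R r1 r2 using fun i => hh i F
    refine ⟨Q ∪ Finset.univ.biUnion R, ?_, fun E hE k => ?_⟩
    · simpa [q1] using r1
    · simp only [Finset.coe_union, union_subset_iff, Finset.coe_biUnion, iUnion_subset_iff] at k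
      obtain ⟨g', g1, g2⟩ := res_mem.1 (q2 E hE k.1)
      choose h' h1 h2 using fun i => res_mem.1 (r2 i E hE (k.2 i (by simp)))
      refine res_mem.2 ⟨_, hE.2.1 _ _ g' h' g1 h1, fun x hx => ?_⟩
      rw [← g2 _ (Finset.mem_image_of_mem _ hx)]
      exact congrArg g' (funext fun i => h2 i x hx)
  · obtain ⟨h, h1, h2⟩ := hg F
    obtain ⟨Q, q1, q2⟩ := h1 F
    refine ⟨Q, q1, fun E hE k => ?_⟩
    obtain ⟨g', g1, g2⟩ := res_mem.1 (q2 E hE k)
    exact res_mem.2 ⟨g', g1, fun x hx => (g2 x hx).trans (h2 x hx)⟩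

theorem le_J {C : Ops} {X : Set S} (h : P C ⊆ X) : C ≤ J X := fun n g hg F =>
  ⟨{res g F}, by simpa using h (res_mem.2 ⟨g, hg, fun _ _ => rfl⟩), fun E _ k => by simpa using k⟩

theorem P_mono {C D : Ops} (h : C ≤ D) : P C ⊆ P D := fun _ ⟨g, g1, g2⟩ => ⟨g, h _ g1, g2⟩

theorem P_J {X : Set S} {s : S} (h : s ∈ P (J X)) : ∃ Q : Finset S, ↑Q ⊆ X ∧
    ∀ E, LocalClone E → ↑Q ⊆ P E → s ∈ P E := by
  classical
  obtain ⟨g, g1, g2⟩ := h
  obtain ⟨Q, q1, q2⟩ := g1 (s.2.image Prod.fst)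
  refine ⟨Q, q1, fun E hE k => ?_⟩
  obtain ⟨g', g3, g4⟩ := res_mem.1 (q2 E hE k)
  exact ⟨g', g3, fun q hq => (g4 _ (Finset.mem_image_of_mem _ hq)).trans (g2 q hq)⟩

theorem key {L : Type} [Lattice L] (h : Embeds L) (t : L) (ht : ∀ a, a ≤ t) (u v : ℝ → L) :
    ∃ A B : ℕ → ℕ → Set ℝ, {p : ℝ × ℝ | u p.1 ⊔ v p.2 ≠ t} = ⋃ n, ⋂ k, (A n k ×ˢ B n k)ᶜ := by
  classical
  obtain ⟨f, f1, f2, -, f4, f5⟩ := h
  have mono : ∀ a, f a ≤ f t := fun a => sup_eq_right.2 (ht a) ▸ (f4 a t).1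
  have ne : (P (f t)).Nonempty := ⟨res _ ∅, res_mem.2 ⟨_, (f2 t).1 0 0, fun _ _ => rfl⟩⟩
  obtain ⟨σ, hσ⟩ := (to_countable (P (f t))).exists_eq_range ne
  obtain ⟨τ, hτ⟩ := exists_surjective_nat (Finset S × Finset S)
  refine ⟨fun n k => {x | ↑(τ k).1 ⊆ P (f (u x)) ∧
    ∀ E, LocalClone E → ↑(τ k).1 ⊆ P E → ↑(τ k).2 ⊆ P E → σ n ∈ P E},
    fun n k => {y | ↑(τ k).2 ⊆ P (f (v y))}, ?_⟩
  ext ⟨x, y⟩
  simp only [mem_ofPred_eq, mem_iUnion, mem_iInter, mem_compl_iff, mem_prod]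
  constructor
  · intro h
    by_contra h'
    push Not at h'
    refine h (f1 ((mono _).antisymm fun n g hg => (f2 _).2.2 n g fun F => ?_))
    obtain ⟨m, hm⟩ : res g F ∈ range σ := hσ ▸ res_mem.2 ⟨g, hg, fun _ _ => rfl⟩
    obtain ⟨k, ⟨k1, k2⟩, k3⟩ := h' m
    exact res_mem.1 (hm ▸ k2 _ (f2 _) (k1.trans (P_mono (f4 _ _).1)) (k3.trans (P_mono (f4 _ _).2)))
  · rintro ⟨n, hn⟩ e
    have : σ n ∈ P (f (u x ⊔ v y)) := by rw [e, hσ]; exact ⟨n, rfl⟩
    obtain ⟨Q, q1, q2⟩ := P_J (P_mono (f5 _ _ _ (J_clone (P (f (u x)) ∪ P (f (v y))))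
      (le_J subset_union_left) (le_J subset_union_right)) this)
    obtain ⟨k, hk⟩ := hτ (Q.filter (· ∈ P (f (u x))), Q.filter (· ∈ P (f (v y))))
    refine hn k ⟨⟨?_, fun E hE a b => q2 E hE fun s hs => ?_⟩, ?_⟩
    · rw [hk]; exact fun s hs => (Finset.mem_filter.1 hs).2
    · rw [hk] at a b
      rcases q1 hs with c | c
      · exact a (Finset.mem_filter.2 ⟨hs, c⟩)
      · exact b (Finset.mem_filter.2 ⟨hs, c⟩)
    · rw [hk]; exact fun s hs => (Finset.mem_filter.1 hs).2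

def adj (R : Set (ℝ × ℝ)) : ℝ ⊕ ℝ → ℝ ⊕ ℝ → Prop
  | .inl x, .inr y => (x, y) ∈ R
  | .inr y, .inl x => (x, y) ∈ R
  | _, _ => False

def LR (R : Set (ℝ × ℝ)) : Type := {T : Set (ℝ ⊕ ℝ) // T = univ ∨ T.Pairwise (adj R)}

open Classical in
noncomputable instance (R : Set (ℝ × ℝ)) : Lattice (LR R) :=
  { Subtype.partialOrder _ with
    sup := fun a b => if h : (a.1 ∪ b.1).Pairwise (adj R) then ⟨_, .inr h⟩ else ⟨_, .inl rfl⟩
    inf := fun a b => ⟨a.1 ∩ b.1, by
      rcases a.2 with h | h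
      · rw [h, univ_inter]; exact b.2
      · exact .inr (h.mono inter_subset_left)⟩
    le_sup_left := fun a b => by split_ifs; exacts [subset_union_left, subset_univ _]
    le_sup_right := fun a b => by split_ifs; exacts [subset_union_right, subset_univ _]
    sup_le := fun a b c h1 h2 => by
      split_ifs with h
      · exact union_subset h1 h2
      · rcases c.2 with k | k
        · exact k.ge
        · exact (h (k.mono (union_subset h1 h2))).elim
    inf_le_left := fun a b => inter_subset_left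
    inf_le_right := fun a b => inter_subset_right
    le_inf := fun a b c => subset_inter }

theorem small {R : Set (ℝ × ℝ)} {T : Set (ℝ ⊕ ℝ)} (h : T.Pairwise (adj R)) : T.encard ≤ 2 := by
  have : InjOn Sum.isLeft T := fun x hx y hy e => by
    by_contra k
    have := h hx hy k
    rcases x with x | x <;> rcases y with y | y <;> simp_all [adj]
  rw [← this.encard_image]
  exact (encard_le_card).trans (by simp)

theorem fin {R : Set (ℝ × ℝ)} (a : LR R) (h : a.1 ≠ univ) : a.1.Finite :=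
  finite_of_encard_le_coe (k := 2) (small (a.2.resolve_left h))

theorem result (H : ∀ (L : Type) [Lattice L],
    (∀ s : Set L, IsChain (· ≤ ·) s → s.encard ≤ 4) → #L = 𝔠 → Embeds L)
    (R : Set (ℝ × ℝ)) :
    (∃ A B : ℕ → ℕ → Set ℝ, R = ⋃ n, ⋂ k, (A n k ×ˢ B n k)ᶜ) ∧
      @MeasurableSet _ ((⊤ : MeasurableSpace ℝ).prod ⊤) R := by
  classical
  have : ∃ A B : ℕ → ℕ → Set ℝ, R = ⋃ n, ⋂ k, (A n k ×ˢ B n k)ᶜ := by
    have h := key (H (LR R) (fun s hs => ?_) ?_) ⟨_, .inl rfl⟩ (fun a => subset_univ _)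
      (fun x => ⟨{.inl x}, .inr (pairwise_singleton _ _)⟩)
      fun x => ⟨{.inr x}, .inr (pairwise_singleton _ _)⟩
    · obtain ⟨A, B, h⟩ := h
      refine ⟨A, B, Eq.trans ?_ h⟩
      ext ⟨x, y⟩
      have e : (({.inl x} : Set (ℝ ⊕ ℝ)) ∪ {.inr y}).Pairwise (adj R) ↔ (x, y) ∈ R := by
        rw [singleton_union, pairwise_pair]
        simp [adj]
      show _ ↔ (dite _ _ _ : LR R) ≠ _
      split_ifs with k
      · refine iff_of_true (e.1 k) fun q => ?_
        have := small k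
        rw [show ({.inl x} : Set (ℝ ⊕ ℝ)) ∪ {.inr y} = univ from congrArg Subtype.val q] at this
        simp at this
      · exact iff_of_false (mt e.2 k) fun q => q rfl
    · have : InjOn (fun a : LR R => if a.1 = univ then 3 else a.1.ncard) s := fun a ha b hb e => by
        have w : ∀ c : LR R, c.1 ≠ univ → c.1.ncard ≠ 3 := fun c hc q => by
          have := small (c.2.resolve_left hc)
          rw [← (fin c hc).cast_ncard_eq, q] at this
          exact absurd this (by decide)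
        simp only at e
        split_ifs at e with p q q
        · exact Subtype.ext (p.trans q.symm)
        · exact (w b q e.symm).elim
        · exact (w a p e).elim
        · rcases hs.total ha hb with k | k
          · exact Subtype.ext (eq_of_subset_of_ncard_le k e.ge (fin b q))
          · exact Subtype.ext (eq_of_subset_of_ncard_le k e.le (fin a p)).symm
      rw [← this.encard_image]
      refine (encard_le_encard (t := ↑(Finset.range 4)) ?_).trans (by
        rw [encard_coe_eq_coe_finsetCard, Finset.card_range]; rfl)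
      rintro _ ⟨a, -, rfl⟩
      simp only [Finset.coe_range, mem_Iio]
      split_ifs with p
      · omega
      · have := small (a.2.resolve_left p)
        rw [← (fin a p).cast_ncard_eq] at this
        have : a.1.ncard ≤ 2 := by exact_mod_cast this
        omega
    · refine le_antisymm ?_ ?_
      · have : Function.Injective fun a : LR R =>
            if h : a.1 = univ then none else some (fin a h).toFinset := fun a b e => by
          simp only at e
          split_ifs at e with p q q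
          · exact Subtype.ext (p.trans q.symm)
          · exact Subtype.ext (by simpa using e)
        simpa [mk_real, add_one_eq aleph0_le_continuum] using mk_le_of_injective this
      · have : Function.Injective fun x : ℝ =>
            (⟨{.inl x}, .inr (pairwise_singleton _ _)⟩ : LR R) := fun a b e => by
          simpa using congrArg Subtype.val e
        exact mk_real ▸ mk_le_of_injective this
  refine ⟨this, ?_⟩
  obtain ⟨A, B, rfl⟩ := this
  exact .iUnion fun n => .iInter fun k =>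
    (@MeasurableSet.prod _ _ ⊤ ⊤ _ _ trivial trivial).compl

end Pool.Agent.Results.MP_c0a48b_al.Rect
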